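import Pool.Agent.MP_4b8552_co.H92.Final

namespace Pool.Agent.Results.MP_4b8552_co.LargeT

open Pool.Agent.MP_4b8552_co

theorem result (n t : ℕ) (ht : 27 * 10 ^ 6 ≤ t) (μ : (Fin 3 → Fin n) → ℕ) (hr : H88.Regular t μ)
    (hc : H88.copies t μ = ∅) :
    (Even t → (1 + 1 / ((t : ℝ) + 1)) * ((n : ℝ) / 2) ≤ H88.nu μ) ∧
    (Odd t → (1 + 1 / (t : ℝ)) * ((n : ℝ) / 2) ≤ H88.nu μ) :=
  ⟨fun h => by exact_mod_cast H92.final hr ht hc (Or.inl ⟨h, rfl⟩),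
    fun h => H92.final hr ht hc (Or.inr ⟨h, rfl⟩)⟩

end Pool.Agent.Results.MP_4b8552_co.LargeT
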