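import Pool.Agent.MP_4b8552_co.H88.Count

namespace Pool.Agent.Results.MP_4b8552_co.LocalBound

open Pool.Agent.MP_4b8552_co.H88

theorem result (n t : ℕ) (ht : 1 ≤ t) (μ : (Fin 3 → Fin n) → ℕ) (hr : Regular t μ) :
    (copies t μ = ∅ → (1 + 1 / (4 * (t : ℝ) - 1)) * ((n : ℝ) / 2) ≤ nu μ) ∧
    ∀ ε : ℝ, (nu μ : ℝ) ≤ (1 + ε) * ((n : ℝ) / 2) →
      (1 - (4 * (t : ℝ) - 1) * ε) * ((n : ℝ) / 2) ≤ (copies t μ).ncard := by
  have h1 : 2 * (t : ℝ) * n + nu μ ≤ 4 * t * nu μ + (copies t μ).ncard := by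
    exact_mod_cast count hr
  have h2 : (1 : ℝ) ≤ t := by exact_mod_cast ht
  have h3 : 0 < 4 * (t : ℝ) - 1 := by linarith
  refine ⟨fun h => ?_, fun ε h => by nlinarith⟩
  rw [h, Set.ncard_empty, Nat.cast_zero] at h1
  rw [show (1 + 1 / (4 * (t : ℝ) - 1)) * ((n : ℝ) / 2) = 2 * t * n / (4 * t - 1) by
    field_simp; ring, div_le_iff₀ h3]
  linarith

end Pool.Agent.Results.MP_4b8552_co.LocalBound
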